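import Pool.Agent.NL.StmtsM

/-!
# Squad NL, row RET (helper5)
-/

set_option autoImplicit false

open MeasureTheory Filter Topology Set

noncomputable section

namespace Pool.Agent.NL.H5

/-- a set in the filter contains a measurable set of positive measure -/
theorem exists_measurable_subset {s : ℝ} {S : Set ℝ} (hS : S ∈ dens s) :
    ∃ S' : Set ℝ, MeasurableSet S' ∧ S' ⊆ S ∧ volume S' ≠ 0 := by
  change Tendsto (fun n : ℕ => ((n : ℝ) + 1) * (volume (Sᶜ ∩ nb n s)).toReal) atTop (𝓝 0) at hS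
  obtain ⟨n, hn⟩ := (hS.eventually (gt_mem_nhds (show (0 : ℝ) < 1 by norm_num))).exists
  refine ⟨nb n s \ toMeasurable volume (Sᶜ ∩ nb n s),
    measurableSet_Icc.diff (measurableSet_toMeasurable _ _), ?_, ?_⟩
  · rintro x ⟨hx, hx'⟩
    by_contra h
    exact hx' (subset_toMeasurable _ _ ⟨h, hx⟩)
  · intro h0
    have h1 : volume (nb n s) ≤ volume (Sᶜ ∩ nb n s) := by
      have h2 : nb n s ⊆ (nb n s \ toMeasurable volume (Sᶜ ∩ nb n s)) ∪
          toMeasurable volume (Sᶜ ∩ nb n s) := by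
        intro x hx
        by_cases h : x ∈ toMeasurable volume (Sᶜ ∩ nb n s)
        · exact Or.inr h
        · exact Or.inl ⟨hx, h⟩
      have h3 := (measure_mono (μ := volume) h2).trans (measure_union_le _ _)
      rwa [h0, zero_add, measure_toMeasurable] at h3
    have hfin : volume (Sᶜ ∩ nb n s) ≠ ⊤ :=
      ((measure_mono inter_subset_right).trans_lt (by simp [nb])).ne
    have h4 := ENNReal.toReal_mono hfin h1
    have h5 : (volume (nb n s)).toReal = 2 / ((n : ℝ) + 1) := by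
      rw [nb, Real.volume_Icc, ENNReal.toReal_ofReal]
      · ring
      · have : (0 : ℝ) < (n : ℝ) + 1 := by positivity
        have h6 : (0 : ℝ) ≤ 1 / ((n : ℝ) + 1) := by positivity
        linarith
    have hpos : (0 : ℝ) < (n : ℝ) + 1 := by positivity
    have h6 := mul_le_mul_of_nonneg_left h4 hpos.le
    rw [h5, mul_div_cancel₀ _ hpos.ne'] at h6
    linarith

theorem ae_injective (m : ℕ) : ∀ᵐ x : Fin m → ℝ, Function.Injective x := by
  have h1 : ∀ i j : Fin m, i ≠ j → ∀ᵐ x : Fin m → ℝ, x i ≠ x j := by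
    intro i j hij
    let L : (Fin m → ℝ) →ₗ[ℝ] ℝ := LinearMap.proj (R := ℝ) (φ := fun _ : Fin m => ℝ) i -
      LinearMap.proj (R := ℝ) (φ := fun _ : Fin m => ℝ) j
    have h2 : LinearMap.ker L ≠ ⊤ := by
      intro h
      have h3 : (Pi.single i (1 : ℝ) : Fin m → ℝ) ∈ LinearMap.ker L := by
        rw [h]
        exact Submodule.mem_top
      rw [LinearMap.mem_ker] at h3
      have h4 : L (Pi.single i (1 : ℝ)) = 1 := by
        simp [L, Pi.single_eq_of_ne (Ne.symm hij)]
      rw [h4] at h3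
      exact one_ne_zero h3
    have h5 := Measure.addHaar_submodule (volume : Measure (Fin m → ℝ)) _ h2
    rw [ae_iff]
    refine measure_mono_null ?_ h5
    intro x hx
    have hx' : x i = x j := not_not.1 hx
    change L x = 0
    simp [L, hx']
  have h2 : ∀ᵐ x : Fin m → ℝ, ∀ i j : Fin m, i ≠ j → x i ≠ x j := by
    rw [ae_all_iff]
    intro i
    rw [ae_all_iff]
    intro j
    by_cases hij : i = j
    · exact Eventually.of_forall fun x h => absurd hij h
    · exact (h1 i j hij).mono fun x hx _ => hx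
  filter_upwards [h2] with x hx i j hij
  by_contra h
  exact hx i j h hij

theorem ae_avoid (m : ℕ) (W : Finset ℝ) : ∀ᵐ x : Fin m → ℝ, ∀ i, x i ∉ W := by
  rw [ae_all_iff]
  intro i
  have h1 : ∀ᵐ y : ℝ, y ∉ W := by
    rw [ae_iff]
    have h2 : {a : ℝ | ¬ a ∉ W} = (W : Set ℝ) := by
      ext a
      simp
    rw [h2]
    exact W.finite_toSet.measure_zero _
  exact (Measure.quasiMeasurePreserving_eval (fun _ : Fin m => (volume : Measure ℝ)) i).ae h1

theorem ret (hE : ExtStmt) : RetStmt := by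
  classical
  intro X _ _ G Ψ hT W hW s S hS e he
  obtain ⟨S', hS'm, hS'S, hS'0⟩ := exists_measurable_subset hS
  obtain ⟨m, hm⟩ := hT S' hS'm hS'0 e he
  have hex : ∃ x : Fin m → ℝ, (Function.Injective x ∧ (∀ i, x i ∉ W) ∧
      Gn G Ψ (W ∪ Finset.univ.image x)) ∧ ¬ ((∀ i, x i ∈ S') → ∀ p : Fin m → ℝ, (∀ i, 0 ≤ p i) →
        ∑ i, p i = 1 → e ≤ rho Ψ (∑ i, p i • G (x i))) := by
    by_contra h
    push Not at h
    apply hm
    have h3 : ∀ᵐ x : Fin m → ℝ, Gn G Ψ (W ∪ Finset.univ.image x) := by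
      have h4 := hE (Good G Ψ) W hW m
      filter_upwards [h4] with x hx
      have h5 : (W ∪ Finset.univ.image x : Finset ℝ) = W ∪ Finset.univ.image x := by
        ext y
        simp only [Finset.mem_union, Finset.mem_image]
      exact hx
    filter_upwards [ae_injective m, ae_avoid m W, h3] with x h5 h6 h7
    intro h8 p h9 h10
    exact h x ⟨h5, h6, h7⟩ h8 p h9 h10
  obtain ⟨x, ⟨hinj, hav, hgn⟩, hx⟩ := hex
  push Not at hx
  obtain ⟨hxS, p, hp0, hp1, hpr⟩ := hx
  -- `m` is positive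
  have hm0 : 0 < m := by
    rcases Nat.eq_zero_or_pos m with h | h
    · subst h
      simp at hp1
    · exact h
  have hmR : (0 : ℝ) < m := by exact_mod_cast hm0
  -- the point `y`
  have hne : (Set.range Ψ).Nonempty := ⟨Ψ 0, 0, rfl⟩
  obtain ⟨_, ⟨y, rfl⟩, hy⟩ := (Metric.infDist_lt_iff hne).1 hpr
  rw [dist_eq_norm] at hy
  set zp : Z := ∑ i, p i • G (x i) with hzp
  set zu : Z := ∑ i, (1 / (m : ℝ)) • G (x i) with hzu
  obtain ⟨θ, hθ0, hθ1, hθ⟩ : ∃ θ : ℝ, 0 < θ ∧ θ ≤ 1 ∧ θ * ‖zu - zp‖ < e - ‖zp - Ψ y‖ := by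
    have hd : 0 < e - ‖zp - Ψ y‖ := by linarith
    have hn : 0 ≤ ‖zu - zp‖ := norm_nonneg _
    refine ⟨min 1 ((e - ‖zp - Ψ y‖) / (2 * (‖zu - zp‖ + 1))), ?_, min_le_left _ _, ?_⟩
    · exact lt_min one_pos (by positivity)
    · calc min 1 ((e - ‖zp - Ψ y‖) / (2 * (‖zu - zp‖ + 1))) * ‖zu - zp‖
          ≤ (e - ‖zp - Ψ y‖) / (2 * (‖zu - zp‖ + 1)) * ‖zu - zp‖ :=
            mul_le_mul_of_nonneg_right (min_le_right _ _) hn
        _ < e - ‖zp - Ψ y‖ := by
            rw [div_mul_eq_mul_div, div_lt_iff₀ (by positivity)]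
            nlinarith
  -- the perturbed coefficients
  set q : Fin m → ℝ := fun i => (1 - θ) * p i + θ * (1 / m) with hq
  have hq0 : ∀ i, 0 < q i := by
    intro i
    have h1 : 0 ≤ (1 - θ) * p i := mul_nonneg (by linarith) (hp0 i)
    have h2 : 0 < θ * (1 / (m : ℝ)) := by positivity
    simp only [hq]
    linarith
  have hq1 : ∑ i, q i = 1 := by
    simp only [hq]
    rw [Finset.sum_add_distrib, ← Finset.mul_sum, hp1, Finset.sum_const, Finset.card_univ,
      Fintype.card_fin, nsmul_eq_mul]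
    field_simp
    ring
  have hzq : ∑ i, q i • G (x i) = (1 - θ) • zp + θ • zu := by
    rw [hzp, hzu, Finset.smul_sum, Finset.smul_sum, ← Finset.sum_add_distrib]
    refine Finset.sum_congr rfl fun i _ => ?_
    rw [smul_smul, smul_smul, ← add_smul]
  set q' : Fin m →₀ ℝ := Finsupp.equivFunOnFinite.symm q with hq'
  have hq'a : ∀ i, q' i = q i := fun i => rfl
  have hsq : q'.support = Finset.univ := by
    ext i
    simp only [Finsupp.mem_support_iff, Finset.mem_univ, iff_true, hq'a]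
    exact (hq0 i).ne'
  have hsupp : (Finsupp.mapDomain x q').support = Finset.univ.image x := by
    rw [Finsupp.mapDomain_support_of_injective hinj, hsq]
  refine ⟨Finsupp.mapDomain x q', ⟨?_, ?_⟩, ?_, ?_, ?_, y, ?_⟩
  · intro w
    by_cases hw : w ∈ Set.range x
    · obtain ⟨i, rfl⟩ := hw
      rw [Finsupp.mapDomain_apply hinj, hq'a]
      exact (hq0 i).le
    · rw [Finsupp.mapDomain_of_notMem_range _ _ hw]
  · rw [Finsupp.sum_mapDomain_index (fun _ => rfl) (fun _ _ _ => rfl),
      Finsupp.sum_fintype _ _ (fun _ => rfl)]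
    exact hq1
  · rw [hsupp]
    intro w hw
    rw [Finset.mem_coe, Finset.mem_image] at hw
    obtain ⟨i, _, rfl⟩ := hw
    exact hS'S (hxS i)
  · rw [hsupp, Finset.disjoint_left]
    intro w hw
    rw [Finset.mem_image] at hw
    obtain ⟨i, _, rfl⟩ := hw
    exact hav i
  · rw [hsupp]
    exact hgn
  · have h1 : V G (Finsupp.mapDomain x q') = ∑ i, q i • G (x i) := by
      rw [V, Finsupp.linearCombination_mapDomain, Finsupp.linearCombination_apply,
        Finsupp.sum_fintype _ _ (fun i => zero_smul ℝ ((G ∘ x) i))]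
      rfl
    rw [h1, hzq]
    have h2 : (1 - θ) • zp + θ • zu - Ψ y = (zp - Ψ y) + θ • (zu - zp) := by
      ext k
      simp only [BoundedContinuousFunction.coe_sub, BoundedContinuousFunction.coe_add,
        BoundedContinuousFunction.coe_smul, Pi.sub_apply, Pi.add_apply, smul_eq_mul]
      ring
    rw [h2]
    refine (norm_add_le _ _).trans_lt ?_
    rw [norm_smul, Real.norm_of_nonneg hθ0.le]
    linarith

end Pool.Agent.NL.H5
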